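import Mathlib
import Pool.Agent.L0h91.DG.Defs
import Pool.Agent.L0h91.DG.Main

/-!
# A dominant rational self-map of projective three-space with degrees growing like `n ^ 4`
-/

set_option autoImplicit false

namespace Pool.Agent.Results.MP_55ef7c_ag.QuarticGrowth

open Pool.Agent.L0h91.DG Filter Topology

theorem rr_lower (n : ℕ) : n ^ 4 ≤ 4 * (rr n).natAbs ^ 2 := by
  have h1 : 2 * n.choose 2 = n * (n - 1) := by
    rw [Nat.choose_two_right]
    exact Nat.mul_div_cancel' (Nat.even_mul_pred_self n).two_dvd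
  have h2 : n ^ 2 ≤ 2 * (rr n).natAbs := by
    have h3 : (rr n).natAbs = 5 + 3 * n + n.choose 2 := by
      simp only [rr]; omega
    rw [h3]
    rcases n with _ | n
    · norm_num
    · rw [Nat.add_sub_cancel] at h1
      nlinarith
  calc n ^ 4 = (n ^ 2) ^ 2 := by ring
    _ ≤ (2 * (rr n).natAbs) ^ 2 := Nat.pow_le_pow_left h2 2
    _ = _ := by ring

theorem tendsto_bound (C : ℝ) (hC : 0 < C) :
    Tendsto (fun n : ℕ => (C * (n : ℝ) ^ 4) ^ (1 / (n : ℝ))) atTop (𝓝 1) := by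
  have h1 : Tendsto (fun n : ℕ => ((n : ℝ) ^ (1 / (n : ℝ)))) atTop (𝓝 1) :=
    tendsto_rpow_div.comp tendsto_natCast_atTop_atTop
  have h2 : Tendsto (fun n : ℕ => C ^ (1 / (n : ℝ))) atTop (𝓝 1) := by
    have h3 : Tendsto (fun n : ℕ => (1 / (n : ℝ))) atTop (𝓝 0) :=
      tendsto_one_div_atTop_nhds_zero_nat
    have := (Real.continuousAt_const_rpow (b := 0) hC.ne').tendsto.comp h3
    rwa [Real.rpow_zero] at this
  have h3 := h2.mul (h1.pow 4)
  rw [one_pow, one_mul] at h3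
  refine h3.congr fun n => ?_
  rw [Real.mul_rpow hC.le (by positivity), ← Real.rpow_natCast ((n : ℝ) ^ (1 / (n : ℝ))) 4,
    ← Real.rpow_natCast (n : ℝ) 4, ← Real.rpow_mul (Nat.cast_nonneg n),
    ← Real.rpow_mul (Nat.cast_nonneg n)]
  congr 2
  ring

/-- Over every field in which `3` is nonzero there is a dominant rational self-map `f` of
projective three-space with `deg (f ^ n) ≍ n ^ 4`; its dynamical degree is `1`, and for no
`ℓ ≤ 3` is `deg (f ^ n) ≍ n ^ ℓ δ ^ n`, where `δ` is the dynamical degree.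

The second clause says that every iterate has a reduced form, whose degree is `f.degIter n`. -/
theorem result (K : Type*) [Field K] (h3 : (3 : K) ≠ 0) :
    ∃ f : RatMap K 3, f.Dominant ∧
      (∀ n, (∃ g : RatMap K 3, f.IsIterate n g) ∧
        ∀ g : RatMap K 3, f.IsIterate n g → g.deg = f.degIter n) ∧
      Asymp (fun n => (f.degIter n : ℝ)) (fun n => (n : ℝ) ^ 4) ∧
      f.HasDynDeg 1 ∧
      ∀ δ : ℝ, f.HasDynDeg δ → ∀ ℓ : ℕ, ℓ ≤ 3 →
        ¬ Asymp (fun n => (f.degIter n : ℝ)) (fun n => (n : ℝ) ^ ℓ * δ ^ n) := by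
  obtain ⟨f, hdom, hex, ⟨D₀, hlow⟩, C, hup⟩ := exists_map K h3
  have hmem : ∀ n, ∃ g : RatMap K 3, f.IsIterate n g ∧ g.deg = f.degIter n := by
    intro n
    obtain ⟨g, hg⟩ := hex n
    have hne : {e | ∃ g : RatMap K 3, f.IsIterate n g ∧ g.deg = e}.Nonempty := ⟨g.deg, g, hg, rfl⟩
    exact Nat.sInf_mem hne
  have hup' : ∀ n : ℕ, 1 ≤ n → (f.degIter n : ℝ) ≤ ((C : ℝ) + 1) * (n : ℝ) ^ 4 := by
    intro n hn
    obtain ⟨g, hg, hgd⟩ := hmem n
    have h1 := hup n hn g hg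
    rw [hgd] at h1
    have h2 : (f.degIter n : ℝ) ≤ (C : ℝ) * (n : ℝ) ^ 4 := by exact_mod_cast h1
    have h3 : (0 : ℝ) ≤ (n : ℝ) ^ 4 := by positivity
    linarith
  have hlow' : ∀ n : ℕ, 2 ≤ n → (n : ℝ) ^ 4 ≤ (6 * ((D₀ : ℝ) + 1)) * (f.degIter n : ℝ) := by
    intro n hn
    obtain ⟨g, hg, hgd⟩ := hmem n
    have h1 := hlow n g hg
    rw [hgd] at h1
    have h2 := rr_lower n
    have h4 : 16 ≤ n ^ 4 := by
      calc 16 = 2 ^ 4 := by norm_num
        _ ≤ n ^ 4 := Nat.pow_le_pow_left hn 4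
    have h5 : n ^ 4 ≤ 6 * (D₀ + 1) * f.degIter n := by nlinarith
    exact_mod_cast h5
  have hdeg1 : ∀ n : ℕ, 2 ≤ n → (1 : ℝ) ≤ (f.degIter n : ℝ) := by
    intro n hn
    have h1 := hlow' n hn
    have h2 : (0 : ℝ) < (n : ℝ) ^ 4 := by
      have : (0 : ℝ) < (n : ℝ) := by exact_mod_cast (by omega : 0 < n)
      positivity
    have h4 : f.degIter n ≠ 0 := by
      intro h0
      rw [h0, Nat.cast_zero, mul_zero] at h1
      linarith
    exact_mod_cast Nat.one_le_iff_ne_zero.2 h4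
  have hasymp : Asymp (fun n => (f.degIter n : ℝ)) (fun n => (n : ℝ) ^ 4) := by
    refine ⟨((C : ℝ) + 1)⁻¹, 6 * ((D₀ : ℝ) + 1), 2, by positivity, by positivity, ?_⟩
    intro n hn
    refine ⟨?_, hlow' n hn⟩
    have hC : (0 : ℝ) < (C : ℝ) + 1 := by positivity
    rw [inv_mul_le_iff₀ hC]
    exact hup' n (by omega)
  have hdyn : f.HasDynDeg 1 := by
    have h1 := tendsto_bound ((C : ℝ) + 1) (by positivity)
    refine tendsto_of_tendsto_of_tendsto_of_le_of_le' tendsto_const_nhds h1 ?_ ?_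
    · filter_upwards [eventually_ge_atTop 2] with n hn
      exact Real.one_le_rpow (hdeg1 n hn) (by positivity)
    · filter_upwards [eventually_ge_atTop 2] with n hn
      exact Real.rpow_le_rpow (by positivity) (hup' n (by omega)) (by positivity)
  have hall : ∀ n, (∃ g : RatMap K 3, f.IsIterate n g) ∧
      ∀ g : RatMap K 3, f.IsIterate n g → g.deg = f.degIter n := by
    classical
    intro n
    refine ⟨hex n, fun g hg => ?_⟩
    obtain ⟨g', hg', hgd⟩ := hmem n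
    rw [← hgd]
    exact le_antisymm (deg_le_of_isIterate f n hg hg') (deg_le_of_isIterate f n hg' hg)
  refine ⟨f, hdom, hall, hasymp, hdyn, ?_⟩
  intro δ hδ ℓ hℓ hA
  have hδ1 : δ = 1 := tendsto_nhds_unique hδ hdyn
  subst hδ1
  obtain ⟨c₁, c₂, c₃, hc₁, hc₂, hA⟩ := hA
  set M : ℝ := 6 * ((D₀ : ℝ) + 1) / c₁ with hM
  have hMpos : 0 < M := by positivity
  obtain ⟨m, hm⟩ := exists_nat_gt M
  set n := max (max c₃ 2) m with hn
  have hn1 : c₃ ≤ n := (le_max_left _ _).trans (le_max_left _ _)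
  have hn2 : 2 ≤ n := (le_max_right _ _).trans (le_max_left _ _)
  have hn3 : M < (n : ℝ) := hm.trans_le (by exact_mod_cast le_max_right _ _)
  have h1 := (hA n hn1).1
  simp only [one_pow, mul_one] at h1
  have h2 := hlow' n hn2
  have hn0 : (1 : ℝ) ≤ (n : ℝ) := by exact_mod_cast (by omega : 1 ≤ n)
  have h4 : (n : ℝ) ^ ℓ ≤ (n : ℝ) ^ 3 := pow_le_pow_right₀ hn0 hℓ
  have h5 : (f.degIter n : ℝ) ≤ (n : ℝ) ^ 3 / c₁ := by
    rw [le_div_iff₀ hc₁, mul_comm]
    linarith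
  have h6 : (n : ℝ) ^ 4 ≤ M * (n : ℝ) ^ 3 := by
    calc (n : ℝ) ^ 4 ≤ (6 * ((D₀ : ℝ) + 1)) * (f.degIter n : ℝ) := h2
      _ ≤ (6 * ((D₀ : ℝ) + 1)) * ((n : ℝ) ^ 3 / c₁) :=
          mul_le_mul_of_nonneg_left h5 (by positivity)
      _ = M * (n : ℝ) ^ 3 := by rw [hM]; ring
  have h7 : (0 : ℝ) < (n : ℝ) ^ 3 := by positivity
  have h8 : (n : ℝ) ^ 4 = (n : ℝ) * (n : ℝ) ^ 3 := by ring
  rw [h8] at h6
  have := le_of_mul_le_mul_right h6 h7
  linarith

end Pool.Agent.Results.MP_55ef7c_ag.QuarticGrowth
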